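import Pool.Agent.Helper63.XR.StB

/-! Project XR (MP_c973ff_an), module NEM. -/

set_option autoImplicit false

namespace Pool.Agent.Helper82.XR

open Pool.Agent.Helper63.XR
open Finset MulOpposite

attribute [local instance] Matrix.linftyOpNormedRing Matrix.linftyOpNormedAlgebra

section

variable {n : Type} [Fintype n] [DecidableEq n]

theorem NEM_le {M : Matrix n n ℂ} {K : ℝ} (hK : 0 ≤ K) (h : ColLe M K) : ‖M.transpose‖ ≤ K := by
  lift K to NNReal using hK
  rw [Matrix.linfty_opNorm_def]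
  rw [NNReal.coe_le_coe]
  refine Finset.sup_le fun i _ => ?_
  have := h i
  rw [← NNReal.coe_le_coe]
  simpa using this

theorem NEM_ge (M : Matrix n n ℂ) : ColLe M ‖M.transpose‖ := by
  intro j
  rw [Matrix.linfty_opNorm_def]
  have h : (∑ i, ‖M.transpose j i‖₊) ≤ (Finset.univ : Finset n).sup fun i => ∑ j, ‖M.transpose i j‖₊ :=
    Finset.le_sup (f := fun i => ∑ j, ‖M.transpose i j‖₊) (Finset.mem_univ j)
  rw [← NNReal.coe_le_coe] at h
  simpa using h

end

theorem NEM_cmpl (R : Type) [NormedRing R] [NormedAlgebra ℂ R] [FiniteDimensional ℂ R] :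
    CompleteSpace R := FiniteDimensional.complete ℂ R

theorem hNEM : StNem := by
  intro hN K
  obtain ⟨K', δ, hδ, hR⟩ := hN K
  refine ⟨K', δ, hδ, ?_⟩
  intro n _ _ x y z hx hy hz hxyz hidem
  rcases isEmpty_or_nonempty n with he | hne
  · exact ⟨0, 0, fun j => (he.false j).elim, fun j => (he.false j).elim,
      Matrix.ext fun i _ => (he.false i).elim, Matrix.ext fun i _ => (he.false i).elim⟩
  have hK0 : 0 ≤ K := by
    obtain ⟨j⟩ := hne
    exact (Finset.sum_nonneg fun i _ => norm_nonneg _).trans (hx j)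
  have hfd : FiniteDimensional ℂ (Matrix n n ℂ)ᵐᵒᵖ :=
    (MulOpposite.opLinearEquiv ℂ (M := Matrix n n ℂ)).finiteDimensional
  have hcs := NEM_cmpl (Matrix n n ℂ)ᵐᵒᵖ
  -- the anti-isomorphism twice
  set φ : Matrix n n ℂ → (Matrix n n ℂ)ᵐᵒᵖ := fun M => op M.transpose with hφ
  have hmul : ∀ a b, φ (a * b) = φ a * φ b := by
    intro a b
    simp only [hφ]
    rw [← op_mul, Matrix.transpose_mul]
  have hone : φ 1 = 1 := by simp [hφ]
  have hsub : ∀ a b, φ (a - b) = φ a - φ b := by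
    intro a b
    simp [hφ]
  have hadd : ∀ a b, φ (a + b) = φ a + φ b := by
    intro a b
    simp [hφ]
  have hinj : Function.Injective φ := by
    intro a b hab
    have := congrArg unop hab
    simp only [hφ, unop_op] at this
    exact Matrix.transpose_injective this
  have hsur : ∀ c, ∃ a, φ a = c := by
    intro c
    exact ⟨c.unop.transpose, by simp [hφ]⟩
  have hnorm : ∀ a, ‖φ a‖ = ‖a.transpose‖ := fun a => rfl
  have h1 : ‖(1 : (Matrix n n ℂ)ᵐᵒᵖ)‖ ≤ 1 := by
    rw [← hone, hnorm]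
    refine NEM_le zero_le_one fun j => ?_
    rw [Finset.sum_eq_single j]
    · simp
    · intro i _ hij
      simp [Matrix.one_apply_ne hij]
    · simp
  have hδ' : ‖(φ x * φ y) * (φ x * φ y) - φ x * φ y‖ ≤ δ := by
    rw [← hmul, ← hmul, ← hsub, hnorm]
    exact NEM_le hδ.le hidem
  obtain ⟨y', z', k1, k2, k3, k4⟩ := @hR (Matrix n n ℂ)ᵐᵒᵖ _ _ hcs h1 (φ x) (φ y) (φ z)
    (NEM_le hK0 hx) (NEM_le hK0 hy) (NEM_le hK0 hz)
    (by rw [← hone, ← hsub, ← hmul, ← hmul, ← hadd, hxyz]) hδ'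
  obtain ⟨y'', rfl⟩ := hsur y'
  obtain ⟨z'', rfl⟩ := hsur z'
  refine ⟨y'', z'', fun j => (NEM_ge y'' j).trans k1, fun j => (NEM_ge z'' j).trans k2, ?_, ?_⟩
  · apply hinj
    rw [hmul, hmul]
    exact k3
  · apply hinj
    rw [hsub, hmul, hmul, hsub, hone]
    exact k4

end Pool.Agent.Helper82.XR
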