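import Pool.Agent.Helper63.XR.StB

/-! Project XR (MP_c973ff_an), module NUB: upper bound of the norm. -/

set_option autoImplicit false

namespace Pool.Agent.Helper82.XR

open Pool.Agent.Helper63.XR
open Finset Filter Topology MeasureTheory

theorem NUB_cmp {X : Type} [TopologicalSpace X] (h : X ≃ₜ X) (m n : ℤ) (f : C(X, ℂ)) (x : X) :
    cmp h (m + n) f x = f ((h ^ n : X ≃ₜ X) ((h ^ m : X ≃ₜ X) x)) := by
  show f ((h ^ (m + n) : X ≃ₜ X) x) = _
  rw [add_comm, zpow_add]
  rfl

theorem hNUB : StNub := by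
  intro hRc hRb hRa X _ _ h g c hc hcs
  unfold nrm
  refine csInf_le ⟨0, fun _ hb => hb.1⟩ ⟨hc, fun ρ ξ => ?_⟩
  set F : ℤ → ℤ → ℝ := fun n m => ‖ρ.π (cmp h m (g n)) (ξ (m - n))‖ with hF
  have hξ : ∀ m, m ∉ ξ.support → ξ m = 0 := fun m hm => Finsupp.notMem_support_iff.1 hm
  have hFs : ∀ n, Summable (F n) := by
    intro n
    refine summable_of_ne_finset_zero (s := ξ.support.map (addRightEmbedding n)) ?_
    intro m hm
    have : m - n ∉ ξ.support := by
      intro h1
      apply hm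
      rw [Finset.mem_map]
      exact ⟨m - n, h1, by simp⟩
    simp only [hF]
    rw [hξ _ this, map_zero, norm_zero]
  have hbound : ∀ m, ‖act h ρ g ξ m‖ ≤ ∑ n ∈ g.support, F n m := by
    intro m
    unfold act
    rw [Finsupp.sum]
    exact norm_sum_le _ _
  have hS : Summable fun m => ∑ n ∈ g.support, F n m :=
    summable_sum fun n _ => hFs n
  have hA : Summable fun m => ‖act h ρ g ξ m‖ :=
    Summable.of_nonneg_of_le (fun _ => norm_nonneg _) hbound hS
  have hshift : ∀ n, ∑' m, F n m = ∑' m, F n (m + n) := fun n =>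
    ((Equiv.addRight n).tsum_eq (F n)).symm
  have hFs' : ∀ n, Summable fun m => F n (m + n) := fun n =>
    (Equiv.addRight n).summable_iff.2 (hFs n)
  have hξs : Summable fun m => ‖ξ m‖ := by
    refine summable_of_ne_finset_zero (s := ξ.support) ?_
    intro m hm
    rw [hξ m hm, norm_zero]
  calc ∑' m, ‖act h ρ g ξ m‖ ≤ ∑' m, ∑ n ∈ g.support, F n m := hA.tsum_le_tsum hbound hS
    _ = ∑ n ∈ g.support, ∑' m, F n m := Summable.tsum_finsetSum fun n _ => hFs n
    _ = ∑ n ∈ g.support, ∑' m, F n (m + n) := Finset.sum_congr rfl fun n _ => hshift n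
    _ = ∑' m, ∑ n ∈ g.support, F n (m + n) := (Summable.tsum_finsetSum fun n _ => hFs' n).symm
    _ ≤ ∑' m, c * ‖ξ m‖ := by
      refine Summable.tsum_le_tsum (fun m => ?_) (summable_sum fun n _ => hFs' n) (hξs.mul_left c)
      have h1 : ∀ n, F n (m + n) = ‖ρ.π (cmp h (m + n) (g n)) (ξ m)‖ := by
        intro n
        simp only [hF]
        rw [add_sub_cancel_right]
      simp only [h1]
      refine hRc hRb hRa X ρ g.support (fun n => cmp h (m + n) (g n)) c (ξ m) hc fun x => ?_
      have h2 := hcs ((h ^ m : X ≃ₜ X) x)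
      rw [Finsupp.sum] at h2
      refine le_trans (le_of_eq ?_) h2
      refine Finset.sum_congr rfl fun n _ => ?_
      rw [NUB_cmp]
    _ = c * ∑' m, ‖ξ m‖ := tsum_mul_left

end Pool.Agent.Helper82.XR
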